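import Pool.Agent.TH826.HD.Main
set_option autoImplicit false

/-!
Density of the regulator `H²(X, ℚ(2)) → H²_H(X, ℚ(2)) = H¹(X, ℂ/ℚ(2))` for hyperelliptic curves `X`
of every genus `g`: the curves `z + 1/z = F(x)`, where `F` is a monic polynomial of degree `g + 1`
whose other coefficients are small complex (for instance algebraic) numbers.  There are `2 g` classes
in `K_2(X) ⊗ ℚ` whose real regulators on `2 g` loops form a nonsingular matrix, so the real span of
the image of the real regulator is `H¹(X, ℝ(1))`, which is equivalent to the density.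
-/

namespace Pool.Agent.Results.MP_b2b689_ag.HyperellipticKTwo

open Polynomial

open Pool.Agent.TH826.MK (KQ symb Torus)

open Pool.Agent.TH826.HD

open scoped Real

/-- For all `g` there are an integer `M ≥ 1` and `δ > 0` such that for all complex numbers
`c_0, ..., c_g` with `|c_i| < δ` and `F = x ^ (g + 1) + ∑_i c_i x ^ i`: the coordinate ring of the
plane curve `z² - F(x) z + 1 = 0` is a domain, and the curve is smooth (the partial derivatives
`2 z - F(x)` and `- F'(x) z` do not vanish simultaneously on it); there are complex numbers `b_m`,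
`0 ≤ m ≤ 2 g + 1`, with `F(b_m) = (-1)^m 2 sin (π / M)` (they are algebraic if the `c_i` are), such
that the symbols `{z, (x - b_m) / (x - b_l)}` on the open part `∏_m (x - b_m) ≠ 0` of the curve are
unramified at all discrete valuations of the function field that are trivial on `ℂ`, and there are
`2 g` loops (`1`-dimensional tori) in the open part such that the determinant of the regulators on
the loops of the `2 g` symbols `{z, (x - b_m) / (x - b_0)}`, `1 ≤ m ≤ 2 g`, does not vanish. -/
theorem result (g : ℕ) : ∃ (M : ℕ) (δ : ℝ), 1 ≤ M ∧ 0 < δ ∧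
    ∀ c : Fin (g + 1) → ℂ, (∀ i, ‖c i‖ < δ) →
      IsDomain (PRing (FF c)) ∧
      (∀ x z : ℂ, z ^ 2 - (FF c).eval x * z + 1 = 0 →
        2 * z - (FF c).eval x ≠ 0 ∨ (derivative (FF c)).eval x * z ≠ 0) ∧
      ∃ b : Fin (2 * g + 2) → ℂ,
        (∀ m, (FF c).eval (b m) = (-1) ^ (m : ℕ) * (2 * Real.sin (π / M))) ∧
        (∀ (L : Type*) [Field L] [Algebra (PRing (FF c)) L] [IsFractionRing (PRing (FF c)) L],
          ∃ f : POpen (FF c) b →+* L,
            (∀ r : PRing (FF c), f (toP (FF c) b r) = algebraMap (PRing (FF c)) L r) ∧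
            ∀ m l, KQ.map 2 f (symb (pent (FF c) b m l)) ∈
              UnramifiedOver (f.comp (pcst (FF c) b)) 2) ∧
        ∃ Γ : Fin (2 * g) → Torus (POpen (FF c) b) 1,
          (∀ l θ (x : ℂ), (Γ l).e θ (pcst (FF c) b x) = x) ∧
          (Matrix.of fun l k : Fin (2 * g) =>
            (Γ l).reg (symb (pent (FF c) b k.castSucc.succ 0))).det ≠ 0 := by
  obtain ⟨M, δ, hM, hδ, hδg, h⟩ := exists_main g
  refine ⟨M, δ, hM, hδ, fun c hc => ⟨isDomain_PRing (natDegree_FF c),
    fun x z hz => smooth_FF hδg hc x z hz, ?_⟩⟩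
  obtain ⟨b, hb, hΓ⟩ := h c hc
  refine ⟨b, hb, ?_, hΓ⟩
  intro L _ _ _
  have hinj : Function.Injective (algebraMap (PRing (FF c)) L) := IsFractionRing.injective _ _
  have hne : algebraMap (PRing (FF c)) L (pDel (FF c) b) ≠ 0 := by
    rw [Ne, map_eq_zero_iff _ hinj]
    exact pDel_ne_zero b
  refine ⟨liftP (algebraMap (PRing (FF c)) L) hne, fun r => liftP_toP _ _ _, fun m l => ?_⟩
  refine symb_mem_unramified _ m l fun m => ?_
  have hM0 : (M : ℂ) ≠ 0 := by exact_mod_cast (by omega : M ≠ 0)
  set ε : ℂ := (-1) ^ (m : ℕ) with hε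
  have hε2 : ε * ε = 1 := by
    rw [hε, ← mul_pow]
    norm_num
  have hε0 : ε ≠ 0 := left_ne_zero_of_mul_eq_one hε2
  refine ⟨ε * Complex.exp (((π / 2 - π / M : ℝ) : ℂ) * Complex.I), 4 * M, by omega, ?_, ?_⟩
  · rw [mul_pow, ← Complex.exp_nat_mul]
    have h1 : ε ^ (4 * M) = 1 := by
      have h2 : ε ^ (4 * M) = (ε * ε) ^ (2 * M) := by
        rw [mul_pow, ← pow_add]
        congr 1
        ring
      rw [h2, hε2, one_pow]
    have h3 : ((4 * M : ℕ) : ℂ) * (((π / 2 - π / M : ℝ) : ℂ) * Complex.I) =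
        ((M : ℤ) - 2 : ℤ) * (2 * π * Complex.I) := by
      push_cast
      field_simp
      ring
    rw [h1, h3, Complex.exp_int_mul_two_pi_mul_I, one_mul]
  · rw [hb m]
    have h1 : (ε * Complex.exp (((π / 2 - π / M : ℝ) : ℂ) * Complex.I))⁻¹ =
        ε * Complex.exp (-(((π / 2 - π / M : ℝ) : ℂ) * Complex.I)) := by
      rw [mul_inv, ← Complex.exp_neg]
      congr 1
      exact (eq_inv_of_mul_eq_one_left hε2).symm
    have h2 : (2 * (Real.sin (π / M) : ℂ)) =
        Complex.exp (((π / 2 - π / M : ℝ) : ℂ) * Complex.I) +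
        Complex.exp (-(((π / 2 - π / M : ℝ) : ℂ) * Complex.I)) := by
      have h3 : Real.sin (π / M) = Real.cos (π / 2 - π / M) := (Real.cos_pi_div_two_sub _).symm
      rw [h3, Complex.ofReal_cos, Complex.cos]
      rw [neg_mul]
      ring
    rw [h1, h2]
    ring

end Pool.Agent.Results.MP_b2b689_ag.HyperellipticKTwo
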